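import Pool.Agent.H8.PI.Lyn

/-!
# PI Alg: leading words

`X x w` is the product of the elements `x i` along the word `w`; `Big w u`: the word `u` is longer than `w`, or of the same length and `SLt w u`.
`EE k x w` is the span of the products along the words which are bigger than `w`; `Lead k x y w`: `y` is `X x w` plus a member of `EE k x w`.
`cm_lead`: for a Lyndon word `l` there is a group commutator `c` of the weight `l.length` such that `c - 1` has the leading word `l`, where `x i = g i - 1`.
`mem_EE`: `X x w ∈ EE k x w` for all long words `w`.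
-/

set_option autoImplicit false

set_option linter.unusedSectionVars false

namespace Pool.Agent.H8.PI

variable {ι : Type*} [LinearOrder ι] {k : Type*} [CommRing k] {A : Type*} [Ring A] [Algebra k A]

/-- the product along a word -/
def X (x : ι → A) (w : List ι) : A := (w.map x).prod

@[simp] theorem X_nil (x : ι → A) : X x [] = 1 := by simp [X]

theorem X_append (x : ι → A) (u v : List ι) : X x (u ++ v) = X x u * X x v := by simp [X]

theorem X_single (x : ι → A) (i : ι) : X x [i] = x i := by simp [X]

theorem X_flatten (x : ι → A) (us : List (List ι)) : X x us.flatten = (us.map (X x)).prod := by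
  induction us with
  | nil => simp
  | cons u us ih => rw [List.flatten_cons, X_append, ih, List.map_cons, List.prod_cons]

theorem X_pow (x : ι → A) (q : ℕ) (w : List ι) : X x (List.replicate q w).flatten = X x w ^ q := by
  rw [X_flatten, List.map_replicate, List.prod_replicate]

/-- `u` is bigger than `w` -/
def Big (w u : List ι) : Prop := w.length < u.length ∨ (w.length = u.length ∧ SLt w u)

theorem Big.trans {u v w : List ι} (h : Big u v) (h' : Big v w) : Big u w := by
  rcases h with h | ⟨h1, h2⟩
  · rcases h' with h' | ⟨h3, h4⟩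
    · exact Or.inl (h.trans h')
    · exact Or.inl (h3 ▸ h)
  · rcases h' with h' | ⟨h3, h4⟩
    · exact Or.inl (h1 ▸ h')
    · exact Or.inr ⟨h1.trans h3, h2.trans h4⟩

theorem Big.append {a b u v : List ι} (h1 : Big a u) (h2 : Big b v) : Big (a ++ b) (u ++ v) := by
  rcases h1 with h1 | ⟨h1, h3⟩
  · left
    rw [List.length_append, List.length_append]
    rcases h2 with h2 | ⟨h2, -⟩ <;> omega
  · rcases h2 with h2 | ⟨h2, -⟩
    · left
      rw [List.length_append, List.length_append]
      omega
    · right
      refine ⟨by rw [List.length_append, List.length_append]; omega, h3.append _ _⟩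

theorem Big.append_right {a u : List ι} (h1 : Big a u) (b : List ι) : Big (a ++ b) (u ++ b) := by
  rcases h1 with h1 | ⟨h1, h3⟩
  · left
    rw [List.length_append, List.length_append]
    omega
  · right
    refine ⟨by rw [List.length_append, List.length_append]; omega, h3.append _ _⟩

theorem Big.append_left {b v : List ι} (a : List ι) (h1 : Big b v) : Big (a ++ b) (a ++ v) := by
  rcases h1 with h1 | ⟨h1, h3⟩
  · left
    rw [List.length_append, List.length_append]
    omega
  · right
    refine ⟨by rw [List.length_append, List.length_append]; omega, (sLt_append_left a).2 h3⟩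

variable (k) in
/-- the span of the products along the bigger words -/
def EE (x : ι → A) (w : List ι) : Submodule k A := Submodule.span k {a | ∃ u, Big w u ∧ X x u = a}

theorem X_mem_EE {x : ι → A} {w u : List ι} (h : Big w u) : X x u ∈ EE k x w := Submodule.subset_span ⟨u, h, rfl⟩

theorem EE_anti {x : ι → A} {w u : List ι} (h : Big w u) : EE k x u ≤ EE k x w := by
  refine Submodule.span_le.2 ?_
  rintro a ⟨v, hv, rfl⟩
  exact X_mem_EE (h.trans hv)

theorem EE_mul_left {x : ι → A} (a : List ι) {b : List ι} {z : A} (hz : z ∈ EE k x b) : X x a * z ∈ EE k x (a ++ b) := by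
  induction hz using Submodule.span_induction with
  | mem z hz =>
    obtain ⟨v, hv, rfl⟩ := hz
    rw [← X_append]
    exact X_mem_EE (hv.append_left a)
  | zero => rw [mul_zero]; exact Submodule.zero_mem _
  | add z z' _ _ h1 h2 => rw [mul_add]; exact Submodule.add_mem _ h1 h2
  | smul c z _ h1 => rw [mul_smul_comm]; exact Submodule.smul_mem _ _ h1

theorem EE_mul_right {x : ι → A} {a : List ι} (b : List ι) {y : A} (hy : y ∈ EE k x a) : y * X x b ∈ EE k x (a ++ b) := by
  induction hy using Submodule.span_induction with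
  | mem z hz =>
    obtain ⟨v, hv, rfl⟩ := hz
    rw [← X_append]
    exact X_mem_EE (hv.append_right b)
  | zero => rw [zero_mul]; exact Submodule.zero_mem _
  | add z z' _ _ h1 h2 => rw [add_mul]; exact Submodule.add_mem _ h1 h2
  | smul c z _ h1 => rw [smul_mul_assoc]; exact Submodule.smul_mem _ _ h1

theorem EE_mul {x : ι → A} {a b : List ι} {y z : A} (hy : y ∈ EE k x a) (hz : z ∈ EE k x b) : y * z ∈ EE k x (a ++ b) := by
  induction hy using Submodule.span_induction with
  | mem y hy =>
    obtain ⟨u, hu, rfl⟩ := hy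
    exact EE_anti (hu.append_right b) (EE_mul_left u hz)
  | zero => rw [zero_mul]; exact Submodule.zero_mem _
  | add z z' _ _ h1 h2 => rw [add_mul]; exact Submodule.add_mem _ h1 h2
  | smul c z _ h1 => rw [smul_mul_assoc]; exact Submodule.smul_mem _ _ h1

theorem mem_EE_of_infix {x : ι → A} {u w : List ι} (h : X x u ∈ EE k x u) (hw : u <:+: w) : X x w ∈ EE k x w := by
  obtain ⟨a, b, rfl⟩ := hw
  rw [X_append, X_append]
  exact EE_mul_right b (EE_mul_left a h)

variable (k) in
/-- `y` has the leading word `w` -/
def Lead (x : ι → A) (y : A) (w : List ι) : Prop := y - X x w ∈ EE k x w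

theorem lead_one (x : ι → A) : Lead k x 1 [] := by
  unfold Lead
  rw [X_nil, sub_self]
  exact Submodule.zero_mem _

theorem Lead.mul {x : ι → A} {y z : A} {a b : List ι} (hy : Lead k x y a) (hz : Lead k x z b) : Lead k x (y * z) (a ++ b) := by
  unfold Lead at *
  have h1 : y * z - X x (a ++ b) = (y - X x a) * (z - X x b) + X x a * (z - X x b) + (y - X x a) * X x b := by
    rw [X_append]
    noncomm_ring
  rw [h1]
  exact Submodule.add_mem _ (Submodule.add_mem _ (EE_mul hy hz) (EE_mul_left a hz)) (EE_mul_right b hy)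

theorem Lead.pow {x : ι → A} {y : A} {a : List ι} (hy : Lead k x y a) (n : ℕ) : Lead k x (y ^ n) (List.replicate n a).flatten := by
  induction n with
  | zero =>
    rw [pow_zero]
    exact lead_one x
  | succ n ih =>
    rw [pow_succ', List.replicate_succ, List.flatten_cons]
    exact hy.mul ih

theorem Lead.mem_EE {x : ι → A} {y : A} {a b : List ι} (hy : Lead k x y b) (hab : Big a b) : y ∈ EE k x a := by
  have h1 : y = (y - X x b) + X x b := by abel
  rw [h1]
  exact Submodule.add_mem _ (EE_anti hab hy) (X_mem_EE hab)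

theorem Lead.sub {x : ι → A} {y z : A} {a : List ι} (hy : Lead k x y a) (hz : z ∈ EE k x a) : Lead k x (y - z) a := by
  unfold Lead at *
  have h1 : y - z - X x a = (y - X x a) - z := by abel
  rw [h1]
  exact Submodule.sub_mem _ hy hz

theorem mem_EE_of_lead_zero {x : ι → A} {a : List ι} (h : Lead k x 0 a) : X x a ∈ EE k x a := by
  unfold Lead at h
  rw [zero_sub] at h
  exact (Submodule.neg_mem_iff _).1 h

/-! ### commutators -/

/-- the group commutators of weight `n` in the elements `g i` -/
inductive Cm {G : Type*} [Group G] {ι : Type*} (g : ι → G) : ℕ → G → Prop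
  | gen (i : ι) : Cm g 1 (g i)
  | comm {m n : ℕ} {a b : G} (ha : Cm g m a) (hb : Cm g n b) : Cm g (m + n) (a * b * a⁻¹ * b⁻¹)

theorem Cm.mem_closure {G : Type*} [Group G] {ι : Type*} {g : ι → G} {n : ℕ} {a : G} (h : Cm g n a) :
    a ∈ Subgroup.closure (Set.range g) := by
  induction h with
  | gen i => exact Subgroup.subset_closure ⟨i, rfl⟩
  | comm _ _ ha hb => exact mul_mem (mul_mem (mul_mem ha hb) (inv_mem ha)) (inv_mem hb)

/-- the elements of the group have constant term `1` -/
theorem lead_unit {g : ι → Aˣ} (hinv : ∀ i, ∃ n : ℕ, (g i)⁻¹ = g i ^ n) {a : Aˣ} (ha : a ∈ Subgroup.closure (Set.range g)) :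
    Lead k (fun i => (g i : A) - 1) (a : A) [] := by
  have key : ∀ i, Lead k (fun i => (g i : A) - 1) (g i : A) [] := by
    intro i
    unfold Lead
    rw [X_nil, ← X_single (fun i => (g i : A) - 1) i]
    exact X_mem_EE (Or.inl (by simp))
  have hfl : ∀ n : ℕ, (List.replicate n ([] : List ι)).flatten = [] := by
    intro n
    simp
  have h : Lead k (fun i => (g i : A) - 1) (a : A) [] ∧ Lead k (fun i => (g i : A) - 1) ((a⁻¹ : Aˣ) : A) [] := by
    induction ha using Subgroup.closure_induction with
    | mem a ha =>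
      obtain ⟨i, rfl⟩ := ha
      refine ⟨key i, ?_⟩
      obtain ⟨n, hn⟩ := hinv i
      rw [hn, Units.val_pow_eq_pow_val]
      have h1 := (key i).pow n
      rwa [hfl n] at h1
    | one =>
      rw [inv_one, Units.val_one]
      exact ⟨lead_one _, lead_one _⟩
    | mul a b _ _ ha hb =>
      rw [mul_inv_rev, Units.val_mul, Units.val_mul]
      exact ⟨ha.1.mul hb.1, hb.2.mul ha.2⟩
    | inv a _ ha =>
      rw [inv_inv]
      exact ⟨ha.2, ha.1⟩
  exact h.1

/-- **for a Lyndon word there is a commutator with this leading word** -/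
theorem cm_lead {g : ι → Aˣ} (hinv : ∀ i, ∃ n : ℕ, (g i)⁻¹ = g i ^ n) (N : ℕ) : ∀ l : List ι, l.length ≤ N → Lyn l →
    ∃ c : Aˣ, Cm g l.length c ∧ Lead k (fun i => (g i : A) - 1) ((c : A) - 1) l := by
  induction N with
  | zero =>
    intro l hl h
    exact absurd (List.length_eq_zero_iff.1 (Nat.le_zero.1 hl)) h.1
  | succ N ih =>
    intro l hl h
    by_cases h2 : 2 ≤ l.length
    · obtain ⟨a, b, rfl, ha, hb⟩ := h.factor h2
      have hla := List.length_pos_iff.2 ha.1
      have hlb := List.length_pos_iff.2 hb.1
      rw [List.length_append] at hl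
      obtain ⟨c, hc, hcl⟩ := ih a (by omega) ha
      obtain ⟨d, hd, hdl⟩ := ih b (by omega) hb
      refine ⟨c * d * c⁻¹ * d⁻¹, by rw [List.length_append]; exact hc.comm hd, ?_⟩
      have hbig : Big (a ++ b) (b ++ a) := by
        right
        refine ⟨by rw [List.length_append, List.length_append, add_comm], ?_⟩
        have h3 := (h.2 a b ha.1 hb.1 rfl).append [] a
        rwa [List.append_nil] at h3
      have h4 : Lead k (fun i => (g i : A) - 1) (((c : A) - 1) * ((d : A) - 1) - ((d : A) - 1) * ((c : A) - 1)) (a ++ b) :=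
        (hcl.mul hdl).sub ((hdl.mul hcl).mem_EE hbig)
      have h5 : Lead k (fun i => (g i : A) - 1) ((c⁻¹ * d⁻¹ : Aˣ) : A) [] :=
        lead_unit hinv (mul_mem (inv_mem hc.mem_closure) (inv_mem hd.mem_closure))
      have h6 := h4.mul h5
      rw [List.append_nil] at h6
      convert h6 using 1
      have h7 : ((c * d * c⁻¹ * d⁻¹ : Aˣ) : A) = (c : A) * d * ((c⁻¹ * d⁻¹ : Aˣ) : A) := by
        rw [mul_assoc, Units.val_mul, Units.val_mul]
      have h8 : (1 : A) = (d : A) * c * ((c⁻¹ * d⁻¹ : Aˣ) : A) := by
        rw [← Units.val_mul, ← Units.val_mul, ← Units.val_one]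
        congr 1
        group
      rw [h7]
      conv_lhs => rw [h8]
      noncomm_ring
    · have h3 : l.length = 1 := by
        have := List.length_pos_iff.2 h.1
        omega
      obtain ⟨i, rfl⟩ := List.length_eq_one_iff.1 h3
      refine ⟨g i, Cm.gen i, ?_⟩
      unfold Lead
      rw [X_single, sub_self]
      exact Submodule.zero_mem _

/-! ### identities -/

/-- a multilinear identity of degree `n`, normalized -/
def Ident (A : Type*) [Ring A] [Algebra k A] (n : ℕ) (c : Equiv.Perm (Fin n) → k) : Prop :=
  ∀ a : Fin n → A, ∑ σ : Equiv.Perm (Fin n), c σ • (List.ofFn fun i => a (σ i)).prod = 0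

/-- the product along a division is a combination of the products along the permuted words -/
theorem ident_span {n : ℕ} {c : Equiv.Perm (Fin n) → k} (hc : c 1 = 1) (h : Ident A n c) (x : ι → A) {us : List (List ι)}
    (hn : us.length = n) (hp : us.Pairwise SLt) :
    X x us.flatten ∈ Submodule.span k {a | ∃ u : List ι, us.flatten.length = u.length ∧ SLt us.flatten u ∧ X x u = a} := by
  classical
  subst hn
  have h1 := h fun i => X x (us.get i)
  have h2 : ∀ σ : Equiv.Perm (Fin us.length), (List.ofFn fun i => X x (us.get (σ i))).prod = X x (List.ofFn fun i => us.get (σ i)).flatten := by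
    intro σ
    rw [X_flatten, List.map_ofFn]
    rfl
  rw [← Finset.add_sum_erase _ _ (Finset.mem_univ (1 : Equiv.Perm (Fin us.length)))] at h1
  have h3 : (List.ofFn fun i => us.get ((1 : Equiv.Perm (Fin us.length)) i)) = us := by simp
  rw [h2, h3, hc, one_smul] at h1
  rw [eq_neg_of_add_eq_zero_left h1]
  refine Submodule.neg_mem _ (Submodule.sum_mem _ fun σ hσ => Submodule.smul_mem _ _ (Submodule.subset_span ?_))
  have h4 : (List.ofFn fun i => us.get (σ i)).Perm us := by
    have h5 := Equiv.Perm.ofFn_comp_perm σ us.get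
    rw [List.ofFn_get] at h5
    exact h5
  refine ⟨_, ?_, ?_, (h2 σ).symm⟩
  · exact (h4.flatten.length_eq).symm
  · refine sLt_flatten_of_perm hp h4 ?_
    intro h5
    apply Finset.ne_of_mem_erase hσ
    have h6 : us.get.Injective := by
      rw [← List.nodup_iff_injective_get]
      refine hp.imp ?_
      intro a b h7 h8
      subst h8
      exact sLt_irrefl _ h7
    have h7 : (fun i => us.get (σ i)) = us.get := by
      apply List.ofFn_injective
      rw [h5, List.ofFn_get]
    ext i
    rw [Equiv.Perm.one_apply]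
    exact congrArg _ (h6 (congrFun h7 i))

theorem ident_EE {n : ℕ} {c : Equiv.Perm (Fin n) → k} (hc : c 1 = 1) (h : Ident A n c) (x : ι → A) {us : List (List ι)}
    (hn : us.length = n) (hp : us.Pairwise SLt) : X x us.flatten ∈ EE k x us.flatten := by
  refine Submodule.span_mono ?_ (ident_span hc h x hn hp)
  rintro a ⟨u, h1, h2, rfl⟩
  exact ⟨u, Or.inr ⟨h1, h2⟩, rfl⟩

/-- **the rewriting of long words** -/
theorem mem_EE [Fintype ι] {n q : ℕ} (hq : 1 ≤ q) {c : Equiv.Perm (Fin n) → k} (hc : c 1 = 1) (h : Ident A n c) {g : ι → Aˣ}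
    (hinv : ∀ i, ∃ n : ℕ, (g i)⁻¹ = g i ^ n) (hcm : ∀ (m : ℕ) (a : Aˣ), m < n → Cm g m a → ((a : A) - 1) ^ q = 0) {w : List ι}
    (hw : n * (n ^ (n ^ ((q + 1) * n)) * ((q + 1) * n + n)) * Fintype.card ι < w.length) :
    X (fun i => (g i : A) - 1) w ∈ EE k (fun i => (g i : A) - 1) w := by
  rcases word_main n (q + 1) w hw with ⟨us, h1, h2, h3⟩ | h1
  · exact mem_EE_of_infix (ident_EE hc h _ h2 h3) h1
  · obtain ⟨l, h2, h3, h4⟩ := exists_lyn_pow hq h1
    obtain ⟨a, h5, h6⟩ := cm_lead (k := k) hinv _ l le_rfl h2
    have h7 := h6.pow q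
    rw [hcm _ a h3 h5] at h7
    exact mem_EE_of_infix (mem_EE_of_lead_zero h7) h4

end Pool.Agent.H8.PI
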