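import Pool.Agent.H8.PI.Alg

/-!
# PI Fn: finite `p`-groups

`word_descent`: induction on words: longer words first replaced by words of the same length which are bigger, then by shorter ones.
`finite_adjoin`: the algebra generated by the `g i` is finite.
`nil_aug`: products of many elements `s - 1`, `s` in a finite `p`-group of units of a finite ring of characteristic `p`, are `0`.
-/

set_option autoImplicit false

set_option linter.unusedSectionVars false

open scoped commutatorElement

namespace Pool.Agent.H8.PI

variable {ι : Type*} [LinearOrder ι]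

theorem word_same_length [Finite ι] {P : List ι → Prop} (h : ∀ w : List ι, (∀ u : List ι, w.length = u.length → SLt w u → P u) → P w) (w : List ι) :
    P w := by
  have hfin : {l : List ι | l.length = w.length}.Finite := List.finite_length_eq ι w.length
  let r : List ι → List ι → Prop := fun u v => SLt v u
  have : IsStrictOrder (List ι) r := { irrefl := fun a => sLt_irrefl a, trans := fun a b c h1 h2 => SLt.trans h2 h1 }
  have hwf : {l : List ι | l.length = w.length}.WellFoundedOn r := hfin.wellFoundedOn
  refine hwf.induction (P := P) (x := w) rfl ?_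
  intro y hy ih
  refine h y fun u hu hyu => ih u ?_ hyu
  exact hu.symm.trans hy

theorem word_descent [Finite ι] {P : List ι → Prop}
    (h : ∀ w : List ι, (∀ u : List ι, (u.length < w.length ∨ (w.length = u.length ∧ SLt w u)) → P u) → P w) (w : List ι) : P w := by
  have key : ∀ N : ℕ, ∀ w : List ι, w.length < N → P w := by
    intro N
    induction N with
    | zero => exact fun w hw => absurd hw (Nat.not_lt_zero _)
    | succ N ih =>
      intro w
      refine word_same_length (P := fun w => w.length < N + 1 → P w) ?_ w
      intro w hw hl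
      refine h w fun u hu => ?_
      rcases hu with hu | ⟨hu, hu'⟩
      · exact ih u (by omega)
      · exact hw u hu hu' (by omega)
  exact key _ w (Nat.lt_succ_self _)

section

variable {k : Type*} [CommRing k] {A : Type*} [Ring A] [Algebra k A]

/-- all products along words are combinations of the products along short words -/
theorem span_short [Fintype ι] {n K : ℕ} (hK0 : 0 < K) {c : Equiv.Perm (Fin n) → k} (hc : c 1 = 1) (h : Ident A n c) {y : ι → A}
    (hK : ∀ v : List ι, v.length < n → X y v ^ K = 1) (w : List ι) :
    X y w ∈ Submodule.span k (X y '' {u : List ι | u.length ≤ n * (n ^ (n ^ (K * n)) * (K * n + n)) * Fintype.card ι}) := by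
  refine word_descent (P := fun w => X y w ∈ Submodule.span k (X y '' {u : List ι | u.length ≤ n * (n ^ (n ^ (K * n)) * (K * n + n)) * Fintype.card ι})) ?_ w
  intro w ih
  by_cases hw : w.length ≤ n * (n ^ (n ^ (K * n)) * (K * n + n)) * Fintype.card ι
  · exact Submodule.subset_span ⟨w, hw, rfl⟩
  · rcases word_main n K w (not_le.1 hw) with ⟨us, ⟨a, b, h1⟩, h2, h3⟩ | ⟨v, ⟨a, b, h1⟩, h2, h3⟩
    · have h4 := ident_span hc h y h2 h3
      have h5 : ∀ z ∈ Submodule.span k {a | ∃ u : List ι, us.flatten.length = u.length ∧ SLt us.flatten u ∧ X y u = a},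
          X y a * z * X y b ∈ Submodule.span k (X y '' {u : List ι | u.length ≤ n * (n ^ (n ^ (K * n)) * (K * n + n)) * Fintype.card ι}) := by
        intro z hz
        induction hz using Submodule.span_induction with
        | mem z hz =>
          obtain ⟨u, h6, h7, rfl⟩ := hz
          rw [← X_append, ← X_append]
          refine ih _ (Or.inr ⟨?_, ?_⟩)
          · rw [← h1]
            simp only [List.length_append, h6]
          · rw [← h1, List.append_assoc, List.append_assoc, sLt_append_left]
            exact h7.append b b
        | zero => rw [mul_zero, zero_mul]; exact Submodule.zero_mem _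
        | add z z' _ _ h1 h2 => rw [mul_add (X y a) z z', add_mul (X y a * z)]; exact Submodule.add_mem _ h1 h2
        | smul c z _ h1 => rw [mul_smul_comm, smul_mul_assoc]; exact Submodule.smul_mem _ _ h1
      have h6 := h5 _ h4
      rw [← X_append, ← X_append, h1] at h6
      exact h6
    · have h4 : X y w = X y (a ++ b) := by
        rw [← h1, X_append, X_append, X_pow, hK v h3, mul_one, ← X_append]
      have h5 := List.length_pos_iff.2 h2
      show X y w ∈ _
      rw [h4]
      refine ih _ (Or.inl ?_)
      rw [← h1]
      have h6 : (List.replicate K v).flatten.length = K * v.length := by simp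
      simp only [List.length_append, h6]
      have : 0 < K * v.length := Nat.mul_pos hK0 h5
      omega

end

theorem exists_word {A : Type*} [Ring A] (y : ι → A) {a : A} (ha : a ∈ Submonoid.closure (Set.range y)) : ∃ w : List ι, X y w = a := by
  induction ha using Submonoid.closure_induction with
  | mem a ha =>
    obtain ⟨i, rfl⟩ := ha
    exact ⟨[i], X_single y i⟩
  | one => exact ⟨[], X_nil y⟩
  | mul a b _ _ ha hb =>
    obtain ⟨u, rfl⟩ := ha
    obtain ⟨v, rfl⟩ := hb
    exact ⟨u ++ v, X_append y u v⟩

/-- **the algebra is finite** (Shirshov) -/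
theorem finite_adjoin {p : ℕ} [hp : Fact p.Prime] {A : Type*} [Ring A] [Algebra (ZMod p) A] [Fintype ι] {n K : ℕ} (hK0 : 0 < K)
    {c : Equiv.Perm (Fin n) → ZMod p} (hc : c 1 = 1) (h : Ident A n c) {y : ι → A} (hK : ∀ v : List ι, v.length < n → X y v ^ K = 1) :
    Finite (Algebra.adjoin (ZMod p) (Set.range y)) := by
  have hfin : (X y '' {u : List ι | u.length ≤ n * (n ^ (n ^ (K * n)) * (K * n + n)) * Fintype.card ι}).Finite :=
    (List.finite_length_le ι _).image _
  have h1 : Module.Finite (ZMod p) (Submodule.span (ZMod p)
      (X y '' {u : List ι | u.length ≤ n * (n ^ (n ^ (K * n)) * (K * n + n)) * Fintype.card ι})) :=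
    Module.Finite.span_of_finite _ hfin
  have h2 : Finite (Submodule.span (ZMod p) (X y '' {u : List ι | u.length ≤ n * (n ^ (n ^ (K * n)) * (K * n + n)) * Fintype.card ι})) :=
    Module.finite_of_finite (ZMod p)
  have h3 : Subalgebra.toSubmodule (Algebra.adjoin (ZMod p) (Set.range y)) ≤
      Submodule.span (ZMod p) (X y '' {u : List ι | u.length ≤ n * (n ^ (n ^ (K * n)) * (K * n + n)) * Fintype.card ι}) := by
    rw [Algebra.adjoin_eq_span, Submodule.span_le]
    intro a ha
    obtain ⟨w, rfl⟩ := exists_word y ha
    exact span_short hK0 hc h hK w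
  exact Finite.Set.subset _ h3

/-- **products of many elements `s - 1` vanish** -/
theorem nil_aug {B : Type*} [Ring B] [Finite B] {p : ℕ} [hp : Fact p.Prime] (hpB : (p : B) = 0) (S : Subgroup Bˣ) (hS : IsPGroup p S) :
    ∃ c : ℕ, ∀ l : List Bˣ, (∀ s ∈ l, s ∈ S) → c ≤ l.length → (l.map (fun s : Bˣ => (s : B) - 1)).prod = 0 := by
  let φ : S →* MulAut (Multiplicative B) :=
    { toFun := fun s =>
        { toFun := fun b => Multiplicative.ofAdd ((s : Bˣ) * Multiplicative.toAdd b : B)
          invFun := fun b => Multiplicative.ofAdd (((s : Bˣ)⁻¹ : Bˣ) * Multiplicative.toAdd b : B)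
          left_inv := fun b => by
            simp
          right_inv := fun b => by
            simp
          map_mul' := fun a b => by
            rw [← ofAdd_add, toAdd_mul, mul_add] }
      map_one' := by
        ext b
        simp
      map_mul' := fun s t => by
        ext b
        simp [mul_assoc] }
  have hφ : ∀ (s : S) (b : B), φ s (Multiplicative.ofAdd b) = Multiplicative.ofAdd (((s : Bˣ) : B) * b) := fun s b => rfl
  have hfin : Finite (Multiplicative B ⋊[φ] S) := Finite.of_equiv _ SemidirectProduct.equivProd.symm
  have hH : IsPGroup p (Multiplicative B ⋊[φ] S) := by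
    intro x
    obtain ⟨k, hk⟩ := hS x.right
    have h1 : (x ^ p ^ k).right = 1 := by
      rw [← SemidirectProduct.rightHom_eq_right, map_pow, SemidirectProduct.rightHom_eq_right, hk]
    refine ⟨k + 1, ?_⟩
    rw [pow_succ, pow_mul]
    have h2 : x ^ p ^ k = SemidirectProduct.inl (x ^ p ^ k).left := by
      ext
      · rfl
      · rw [h1]; rfl
    rw [h2, ← map_pow]
    have h3 : (x ^ p ^ k).left ^ p = 1 := by
      rw [← toAdd_eq_zero, toAdd_pow, nsmul_eq_mul, hpB, zero_mul]
    rw [h3, map_one]
  obtain ⟨c, hc⟩ := Subgroup.nilpotent_iff_lowerCentralSeries.1 hH.isNilpotent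
  refine ⟨c, fun l hl hcl => ?_⟩
  have key : ∀ l : List Bˣ, (∀ s ∈ l, s ∈ S) → ∀ b : B, (SemidirectProduct.inl (Multiplicative.ofAdd ((l.map (fun s : Bˣ => (s : B) - 1)).prod * b)) :
      Multiplicative B ⋊[φ] S) ∈ (⊤ : Subgroup (Multiplicative B ⋊[φ] S)).lowerCentralSeries l.length := by
    intro l
    induction l with
    | nil => exact fun _ _ => Subgroup.mem_top _
    | cons s l ih =>
      intro hl b
      have h1 := ih (fun t ht => hl t (List.mem_cons_of_mem _ ht)) b
      set v := (l.map (fun s : Bˣ => (s : B) - 1)).prod * b with hv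
      have hs : s ∈ S := hl s List.mem_cons_self
      have h2 := Subgroup.commutator_mem_commutator h1 (Subgroup.mem_top (SemidirectProduct.inr (⟨s, hs⟩ : S) : Multiplicative B ⋊[φ] S))
      have h3 := inv_mem h2
      have h4 : (⁅(SemidirectProduct.inl (Multiplicative.ofAdd v) : Multiplicative B ⋊[φ] S),
          (SemidirectProduct.inr (⟨s, hs⟩ : S) : Multiplicative B ⋊[φ] S)⁆)⁻¹ =
          SemidirectProduct.inl (Multiplicative.ofAdd (((s : B) - 1) * v)) := by
        rw [commutatorElement_def]
        have h5 : (SemidirectProduct.inr (⟨s, hs⟩ : S) : Multiplicative B ⋊[φ] S) * (SemidirectProduct.inl (Multiplicative.ofAdd v))⁻¹ *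
            (SemidirectProduct.inr (⟨s, hs⟩ : S))⁻¹ = SemidirectProduct.inl (φ ⟨s, hs⟩ (Multiplicative.ofAdd v)⁻¹) := by
          rw [SemidirectProduct.inl_aut, map_inv, map_inv]
        rw [mul_assoc (SemidirectProduct.inl (Multiplicative.ofAdd v)), mul_assoc, h5, ← map_mul, ← map_inv]
        congr 1
        rw [← ofAdd_neg, hφ, ← ofAdd_add, ← ofAdd_neg]
        congr 1
        simp only
        noncomm_ring
      rw [h4] at h3
      rw [List.map_cons, List.prod_cons, mul_assoc, List.length_cons]
      exact h3
  have h1 := key l hl 1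
  have h2 := Subgroup.lowerCentralSeries_antitone (⊤ : Subgroup (Multiplicative B ⋊[φ] S)) hcl h1
  rw [hc, Subgroup.mem_bot, mul_one] at h2
  have h3 : (SemidirectProduct.inl (Multiplicative.ofAdd (l.map (fun s : Bˣ => (s : B) - 1)).prod) : Multiplicative B ⋊[φ] S) =
      SemidirectProduct.inl 1 := by
    rw [h2, map_one]
  have h4 := SemidirectProduct.inl_injective h3
  exact ofAdd_eq_one.1 h4

end Pool.Agent.H8.PI
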