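import Pool.Agent.H8.PI.Word

/-!
# PI Lyn: Lyndon words

`Lyn l`: the word `l` is smaller than its proper suffixes.  `Lyn.factor`: a Lyndon word with at least two letters is a product of two Lyndon words.
`exists_lyn_pow`: a word which contains the power `v ^ (q + 1)` contains the power `l ^ q` of a Lyndon word `l` with `l.length ≤ v.length`.
-/

set_option autoImplicit false

set_option linter.unusedSectionVars false

namespace Pool.Agent.H8.PI

variable {α : Type*} [LinearOrder α]

/-- Lyndon words -/
def Lyn (l : List α) : Prop := l ≠ [] ∧ ∀ a s : List α, a ≠ [] → s ≠ [] → l = a ++ s → SLt l s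

theorem lt_of_sLt {u v : List α} (h : SLt u v) : u < v := by
  induction u generalizing v with
  | nil => simp at h
  | cons x u ih =>
    cases v with
    | nil => simp at h
    | cons y v =>
      rw [List.cons_lt_cons_iff]
      rcases h with h | ⟨h1, h2⟩
      · exact Or.inl h
      · exact Or.inr ⟨h1, ih h2⟩

theorem lt_of_prefix {u v : List α} (h : u <+: v) (hne : u ≠ v) : u < v := by
  obtain ⟨s, rfl⟩ := h
  induction u with
  | nil =>
    cases s with
    | nil => simp at hne
    | cons x s => exact List.nil_lt_cons _ _
  | cons x u ih =>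
    rw [List.cons_append, List.cons_lt_cons_iff]
    exact Or.inr ⟨rfl, ih (fun h => hne (by rw [List.cons_append, ← h]))⟩

/-- if `u ≤ v` and `v` is shorter than `u` then `u` is smaller at the first difference -/
theorem sLt_of_lt_of_length {u v : List α} (h : u < v) (hl : v.length ≤ u.length) : SLt u v := by
  rcases sLt_tri u v with h1 | h1 | h1 | h1
  · exact h1
  · exact absurd (h.trans (lt_of_sLt h1)) (lt_irrefl _)
  · exact absurd (h1.eq_of_length (le_antisymm h1.length_le hl)) h.ne
  · by_cases h2 : v = u
    · exact absurd h2 h.ne'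
    · exact absurd (h.trans (lt_of_prefix h1 h2)) (lt_irrefl _)

/-- a Lyndon word is a letter or the product of two Lyndon words -/
theorem Lyn.factor {l : List α} (h : Lyn l) (h2 : 2 ≤ l.length) : ∃ a b : List α, l = a ++ b ∧ Lyn a ∧ Lyn b := by
  classical
  -- the smallest proper suffix
  obtain ⟨i, hi, hmin⟩ := (Finset.Ico 1 l.length).exists_min_image (fun i => l.drop i) ⟨1, by rw [Finset.mem_Ico]; omega⟩
  rw [Finset.mem_Ico] at hi
  set a := l.take i with ha
  set b := l.drop i with hb
  have hab : l = a ++ b := (List.take_append_drop i l).symm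
  have hla : a.length = i := by rw [ha, List.length_take]; omega
  have ha0 : a ≠ [] := by
    intro h0
    rw [h0] at hla
    simp at hla
    omega
  have hb0 : b ≠ [] := by
    intro h0
    have : b.length = l.length - i := by rw [hb, List.length_drop]
    rw [h0] at this
    simp at this
    omega
  have hle : ∀ r s : List α, r ≠ [] → s ≠ [] → l = r ++ s → b ≤ s := by
    intro r s hr hs hrs
    have h3 := hmin r.length (by
      rw [Finset.mem_Ico, hrs, List.length_append]
      have h4 := List.length_pos_iff.2 hr
      have h5 := List.length_pos_iff.2 hs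
      omega)
    have h4 : l.drop r.length = s := by rw [hrs, List.drop_left]
    rw [h4] at h3
    exact h3
  refine ⟨a, b, hab, ⟨ha0, ?_⟩, ⟨hb0, ?_⟩⟩
  · intro r s hr hs hrs
    -- `l = r ++ s ++ b`
    have h3 : SLt l (s ++ b) := h.2 r (s ++ b) hr (by simp [hs]) (by rw [hab, hrs, List.append_assoc])
    rcases sLt_tri a s with h4 | h4 | h4 | h4
    · exact h4
    · exfalso
      have h5 := h4.append b b
      rw [← hab] at h5
      exact sLt_irrefl _ (h3.trans h5)
    · exfalso
      have h5 := h4.length_le
      have h6 : a.length = r.length + s.length := by rw [hrs, List.length_append]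
      have h7 := List.length_pos_iff.2 hr
      omega
    · exfalso
      obtain ⟨t, ht⟩ := h4
      have h5 : l = s ++ (t ++ b) := by rw [hab, ← ht, List.append_assoc]
      have h6 : SLt (t ++ b) b := by
        rw [← sLt_append_left s, ← h5]
        exact h3
      have h7 := hle s (t ++ b) hs (by simp [hb0]) h5
      exact absurd (lt_of_sLt h6) (not_lt.2 h7)
  · intro r s hr hs hrs
    have h3 := hle (a ++ r) s (by simp [ha0]) hs (by rw [List.append_assoc, ← hrs]; exact hab)
    have h4 : s.length < b.length := by
      rw [hrs, List.length_append]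
      have h7 := List.length_pos_iff.2 hr
      omega
    have h5 : b ≠ s := fun h5 => by rw [h5] at h4; exact lt_irrefl _ h4
    exact sLt_of_lt_of_length (lt_of_le_of_ne h3 h5) h4.le

/-- commuting words are powers of one word -/
theorem comm_pow (N : ℕ) : ∀ a b : List α, a.length + b.length ≤ N → a ≠ [] → b ≠ [] → a ++ b = b ++ a →
    ∃ (c : List α) (i j : ℕ), 1 ≤ i ∧ 1 ≤ j ∧ c ≠ [] ∧ a = (List.replicate i c).flatten ∧ b = (List.replicate j c).flatten := by
  induction N with
  | zero =>
    intro a b h ha hb _
    exfalso
    have := List.length_pos_iff.2 ha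
    omega
  | succ N ih =>
    -- the case `a.length < b.length`
    have key : ∀ a b : List α, a.length + b.length ≤ N + 1 → a ≠ [] → b ≠ [] → a ++ b = b ++ a → a.length < b.length →
        ∃ (c : List α) (i j : ℕ), 1 ≤ i ∧ 1 ≤ j ∧ c ≠ [] ∧ a = (List.replicate i c).flatten ∧ b = (List.replicate j c).flatten := by
      intro a b h ha hb hab hlt
      have h1 : a <+: b := by
        have h2 : a <+: b ++ a := by rw [← hab]; exact List.prefix_append _ _
        exact List.prefix_of_prefix_length_le h2 (List.prefix_append _ _) hlt.le
      obtain ⟨b', rfl⟩ := h1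
      rw [List.append_assoc, List.append_right_inj] at hab
      have h3 := List.length_pos_iff.2 ha
      rw [List.length_append] at h hlt
      have hb' : b' ≠ [] := by
        intro h4
        rw [h4] at hlt
        simp at hlt
      obtain ⟨c, i, j, hi, hj, hc, h5, h6⟩ := ih a b' (by omega) ha hb' hab
      refine ⟨c, i, i + j, hi, by omega, hc, h5, ?_⟩
      rw [List.replicate_add, List.flatten_append, ← h5, ← h6]
    intro a b h ha hb hab
    rcases lt_trichotomy a.length b.length with h1 | h1 | h1
    · exact key a b h ha hb hab h1
    · have h2 := (List.append_inj hab h1).1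
      subst h2
      exact ⟨a, 1, 1, le_rfl, le_rfl, ha, by simp, by simp⟩
    · obtain ⟨c, i, j, hi, hj, hc, h5, h6⟩ := key b a (by omega) hb ha hab.symm h1
      exact ⟨c, j, i, hj, hi, hc, h6, h5⟩

/-- a primitive word has a Lyndon rotation -/
theorem exists_lyn_rotation {v : List α} (hv : v ≠ []) (hp : ∀ i a s : List α, i = a ++ s → v ~r i → a ≠ [] → s ≠ [] → a ++ s ≠ s ++ a) :
    ∃ x y : List α, v = x ++ y ∧ Lyn (y ++ x) := by
  have hvl := List.length_pos_iff.2 hv
  obtain ⟨i, hi, hmin⟩ := (Finset.range v.length).exists_min_image (fun i => v.rotate i) ⟨0, by rw [Finset.mem_range]; exact hvl⟩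
  rw [Finset.mem_range] at hi
  have hmin' : ∀ j : ℕ, v.rotate i ≤ v.rotate j := by
    intro j
    rw [← List.rotate_mod v j]
    exact hmin _ (Finset.mem_range.2 (Nat.mod_lt _ hvl))
  refine ⟨v.take i, v.drop i, (List.take_append_drop i v).symm, ?_⟩
  have hrot : v.drop i ++ v.take i = v.rotate i := (List.rotate_eq_drop_append_take hi.le).symm
  rw [hrot]
  set l := v.rotate i with hl
  have hl0 : l ≠ [] := by
    intro h
    have h1 : l.length = v.length := List.length_rotate _ _
    rw [h] at h1
    simp at h1
    omega
  -- the rotations are larger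
  have hbig : ∀ a s : List α, a ≠ [] → s ≠ [] → l = a ++ s → SLt l (s ++ a) := by
    intro a s ha hs has
    have h1 : s ++ a = v.rotate (i + a.length) := by
      rw [← List.rotate_rotate, ← hl, has, List.rotate_append_length_eq]
    have h2 := hmin' (i + a.length)
    rw [← h1] at h2
    have h3 : l ≠ s ++ a := by
      rw [has]
      exact hp l a s has ⟨i, hl.symm⟩ ha hs
    refine sLt_of_lt (lt_of_le_of_ne h2 h3) ?_
    rw [has, List.length_append, List.length_append, add_comm]
  refine ⟨hl0, ?_⟩
  intro a s ha hs has
  rcases sLt_tri l s with h4 | h4 | h4 | h4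
  · exact h4
  · exfalso
    have h5 := h4.append a []
    rw [List.append_nil] at h5
    exact sLt_irrefl _ ((hbig a s ha hs has).trans h5)
  · exfalso
    have h5 := h4.length_le
    have h7 := List.length_pos_iff.2 ha
    rw [has, List.length_append] at h5
    omega
  · exfalso
    obtain ⟨t, ht⟩ := h4
    have hta : t.length = a.length := by
      have h5 : (s ++ t).length = (a ++ s).length := by rw [ht, has]
      rw [List.length_append, List.length_append] at h5
      omega
    have ht0 : t ≠ [] := by
      intro h5
      rw [h5] at hta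
      exact ha (List.length_eq_zero_iff.1 hta.symm)
    have h6 := hbig a s ha hs has
    rw [← ht, sLt_append_left] at h6
    have h7 := hbig s t hs ht0 ht.symm
    have h8 := h6.append s s
    rw [← has] at h8
    exact sLt_irrefl _ (h7.trans h8)

/-- a word which contains the power `v ^ (q + 1)` contains the `q`-th power of a Lyndon word which is not longer than `v` -/
theorem exists_lyn_pow {w : List α} {q n : ℕ} (hq : 1 ≤ q) (h : ∃ v : List α, (List.replicate (q + 1) v).flatten <:+: w ∧ v ≠ [] ∧ v.length < n) :
    ∃ l : List α, Lyn l ∧ l.length < n ∧ (List.replicate q l).flatten <:+: w := by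
  classical
  -- minimal length
  have hex : ∃ N : ℕ, ∃ v : List α, (List.replicate (q + 1) v).flatten <:+: w ∧ v ≠ [] ∧ v.length < n ∧ v.length = N := by
    obtain ⟨v, h1, h2, h3⟩ := h
    exact ⟨_, v, h1, h2, h3, rfl⟩
  obtain ⟨v, h1, h2, h3, h4⟩ := Nat.find_spec hex
  have hmin : ∀ c : List α, (List.replicate (q + 1) c).flatten <:+: w → c ≠ [] → v.length ≤ c.length := by
    intro c hc hc0
    by_contra h5
    exact Nat.find_min hex (m := c.length) (by omega) ⟨c, hc, hc0, by omega, rfl⟩
  have hpow : ∀ (x y : List α) (k : ℕ), (List.replicate (k + 1) (x ++ y)).flatten = x ++ (List.replicate k (y ++ x)).flatten ++ y := by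
    intro x y k
    induction k with
    | zero => simp
    | succ k ih =>
      rw [List.replicate_succ, List.flatten_cons, ih, List.replicate_succ, List.flatten_cons]
      simp
  have hprim : ∀ i a s : List α, i = a ++ s → v ~r i → a ≠ [] → s ≠ [] → a ++ s ≠ s ++ a := by
    intro i a s hi hr ha hs hcomm
    obtain ⟨c, m, j, hm, hj, hc, h5, h6⟩ := comm_pow _ a s le_rfl ha hs hcomm
    -- `i = c ^ (m + j)`
    have h7 : i = (List.replicate (m + j) c).flatten := by
      rw [hi, List.replicate_add, List.flatten_append, ← h5, ← h6]
    obtain ⟨r, hr⟩ := hr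
    obtain ⟨x, y, hxy, hyx⟩ : ∃ x y : List α, v = x ++ y ∧ i = y ++ x := by
      refine ⟨v.take (r % v.length), v.drop (r % v.length), (List.take_append_drop _ v).symm, ?_⟩
      rw [← hr, ← List.rotate_mod]
      exact List.rotate_eq_drop_append_take (Nat.mod_lt _ (List.length_pos_iff.2 h2)).le
    have h8 : (List.replicate q i).flatten <:+: w := by
      refine List.IsInfix.trans ?_ h1
      rw [hxy, hpow x y q, ← hyx]
      exact ⟨x, y, rfl⟩
    have h9 : ∀ k : ℕ, (List.replicate k i).flatten = (List.replicate (k * (m + j)) c).flatten := by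
      intro k
      induction k with
      | zero => simp
      | succ k ih =>
        rw [List.replicate_succ, List.flatten_cons, ih, Nat.succ_mul, add_comm (k * (m + j)), List.replicate_add, List.flatten_append, ← h7]
    have h10 : (List.replicate (q + 1) c).flatten <:+: w := by
      refine List.IsInfix.trans ?_ h8
      rw [h9]
      have h11 : q + 1 ≤ q * (m + j) := by nlinarith
      obtain ⟨e, he⟩ := Nat.exists_eq_add_of_le h11
      have h16 : (List.replicate (q + 1 + e) c).flatten = (List.replicate (q + 1) c).flatten ++ (List.replicate e c).flatten := by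
        rw [List.replicate_add (q + 1) e c, List.flatten_append]
      rw [he, h16]
      exact (List.prefix_append _ _).isInfix
    have h12 := hmin c h10 hc
    have h13 : i.length = v.length := by rw [hxy, hyx, List.length_append, List.length_append, add_comm]
    have h14 : i.length = (m + j) * c.length := by rw [h7]; simp
    have h15 := List.length_pos_iff.2 hc
    nlinarith
  obtain ⟨x, y, hxy, hlyn⟩ := exists_lyn_rotation h2 hprim
  refine ⟨y ++ x, hlyn, ?_, ?_⟩
  · rw [hxy, List.length_append] at h3
    rw [List.length_append]
    omega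
  · refine List.IsInfix.trans ?_ h1
    rw [hxy, hpow x y q]
    exact ⟨x, y, rfl⟩

end Pool.Agent.H8.PI
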