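import Pool.Agent.H8.PI.Fn

/-!
# PI Main: the class is at most linear in the number of generators
-/

set_option autoImplicit false

set_option linter.unusedSectionVars false

open scoped commutatorElement

namespace Pool.Agent.H8.PI

variable {ι : Type*} [LinearOrder ι]

/-- the constant -/
def bigC (q n : ℕ) : ℕ := (q + 2) * n ^ 2 * n ^ n ^ ((q + 1) * n)

theorem bigC_eq (q n : ℕ) : bigC q n = n * (n ^ (n ^ ((q + 1) * n)) * ((q + 1) * n + n)) := by
  unfold bigC
  ring

section om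

variable {k : Type*} [CommRing k] {A : Type*} [Ring A] [Algebra k A]

variable (k) in
/-- the span of the products along the words with at least `N` letters -/
def Om (x : ι → A) (N : ℕ) : Submodule k A := Submodule.span k {a | ∃ u : List ι, N ≤ u.length ∧ X x u = a}

theorem Om_anti (x : ι → A) {M N : ℕ} (h : M ≤ N) : Om k x N ≤ Om k x M :=
  Submodule.span_mono fun _ ⟨u, hu, hx⟩ => ⟨u, h.trans hu, hx⟩

theorem Om_mul {x : ι → A} {M N : ℕ} {y z : A} (hy : y ∈ Om k x M) (hz : z ∈ Om k x N) : y * z ∈ Om k x (M + N) := by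
  induction hy using Submodule.span_induction with
  | mem y hy =>
    obtain ⟨u, hu, rfl⟩ := hy
    induction hz using Submodule.span_induction with
    | mem z hz =>
      obtain ⟨v, hv, rfl⟩ := hz
      rw [← X_append]
      exact Submodule.subset_span ⟨u ++ v, by rw [List.length_append]; omega, rfl⟩
    | zero => rw [mul_zero]; exact Submodule.zero_mem _
    | add z z' _ _ h1 h2 => rw [mul_add]; exact Submodule.add_mem _ h1 h2
    | smul c z _ h1 => rw [mul_smul_comm]; exact Submodule.smul_mem _ _ h1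
  | zero => rw [zero_mul]; exact Submodule.zero_mem _
  | add z z' _ _ h1 h2 => rw [add_mul]; exact Submodule.add_mem _ h1 h2
  | smul c z _ h1 => rw [smul_mul_assoc]; exact Submodule.smul_mem _ _ h1

theorem EE_nil_le (x : ι → A) : EE k x [] ≤ Om k x 1 := by
  refine Submodule.span_mono ?_
  rintro a ⟨u, hu, rfl⟩
  refine ⟨u, ?_, rfl⟩
  rcases hu with hu | ⟨-, hu⟩
  · exact hu
  · exact absurd hu (sLt_nil_left _)

theorem X_mem_Om_succ [Finite ι] {x : ι → A} {N₀ : ℕ} (h : ∀ w : List ι, N₀ < w.length → X x w ∈ EE k x w) (w : List ι) :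
    N₀ < w.length → X x w ∈ Om k x (w.length + 1) := by
  refine word_same_length (P := fun w => N₀ < w.length → X x w ∈ Om k x (w.length + 1)) ?_ w
  intro w ih hw
  have h1 : EE k x w ≤ Om k x (w.length + 1) := by
    refine Submodule.span_le.2 ?_
    rintro a ⟨u, hu, rfl⟩
    rcases hu with hu | ⟨hu, hu'⟩
    · exact Submodule.subset_span ⟨u, hu, rfl⟩
    · have h2 := ih u hu hu' (hu ▸ hw)
      rw [← hu] at h2
      exact h2
  exact h1 (h w hw)

theorem X_eq_zero_of_nil [Finite ι] {x : ι → A} {N₀ : ℕ} (h : ∀ w : List ι, N₀ < w.length → X x w ∈ EE k x w) {c : ℕ}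
    (hc : ∀ w : List ι, c ≤ w.length → X x w = 0) {w : List ι} (hw : N₀ < w.length) : X x w = 0 := by
  have h1 : ∀ N, N₀ < N → Om k x N ≤ Om k x (N + 1) := by
    intro N hN
    refine Submodule.span_le.2 ?_
    rintro a ⟨u, hu, rfl⟩
    rcases Nat.lt_or_ge N u.length with h2 | h2
    · exact Submodule.subset_span ⟨u, h2, rfl⟩
    · have h3 : u.length = N := le_antisymm h2 hu
      have h4 := X_mem_Om_succ h u (by omega)
      rw [h3] at h4
      exact h4
  have h2 : ∀ j : ℕ, Om k x (N₀ + 1) ≤ Om k x (N₀ + 1 + j) := by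
    intro j
    induction j with
    | zero => exact le_rfl
    | succ j ih => exact ih.trans (h1 _ (by omega))
  have h3 : Om k x (N₀ + 1 + c) ≤ ⊥ := by
    refine Submodule.span_le.2 ?_
    rintro a ⟨u, hu, rfl⟩
    exact hc u (by omega)
  have h4 : X x w ∈ Om k x (N₀ + 1) := Submodule.subset_span ⟨w, hw, rfl⟩
  exact (Submodule.mem_bot k).1 (h3 (h2 c h4))

/-- the group elements `a` of `S` with `a - 1` in `Om k x (j + 1)` -/
def TS {x : ι → A} {S : Subgroup Aˣ} (hS : ∀ a ∈ S, (a : A) - 1 ∈ Om k x 1) (j : ℕ) : Subgroup Aˣ where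
  carrier := {a | a ∈ S ∧ (a : A) - 1 ∈ Om k x (j + 1)}
  one_mem' := ⟨S.one_mem, by rw [Units.val_one, sub_self]; exact Submodule.zero_mem _⟩
  mul_mem' := by
    rintro a b ⟨ha, ha'⟩ ⟨hb, hb'⟩
    refine ⟨S.mul_mem ha hb, ?_⟩
    have h1 : ((a * b : Aˣ) : A) - 1 = ((a : A) - 1) * ((b : A) - 1) + ((a : A) - 1) + ((b : A) - 1) := by
      rw [Units.val_mul]
      noncomm_ring
    rw [h1]
    exact Submodule.add_mem _ (Submodule.add_mem _ (Om_anti x (by omega) (Om_mul ha' hb')) ha') hb'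
  inv_mem' := by
    rintro a ⟨ha, ha'⟩
    refine ⟨S.inv_mem ha, ?_⟩
    have h1 : ((a⁻¹ : Aˣ) : A) - 1 = -((((a⁻¹ : Aˣ) : A) - 1) * ((a : A) - 1) + ((a : A) - 1)) := by
      have h2 : ((a⁻¹ : Aˣ) : A) * (a : A) = 1 := a.inv_mul
      rw [sub_mul, mul_sub, h2]
      noncomm_ring
    rw [h1]
    exact Submodule.neg_mem _ (Submodule.add_mem _ (Om_anti x (by omega) (Om_mul (hS _ (S.inv_mem ha)) ha')) ha')

theorem lcs_le {x : ι → A} {S : Subgroup Aˣ} (hS : ∀ a ∈ S, (a : A) - 1 ∈ Om k x 1) (j : ℕ) : S.lowerCentralSeries j ≤ TS hS j := by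
  induction j with
  | zero => exact fun a ha => ⟨ha, hS a ha⟩
  | succ j ih =>
    rw [Subgroup.lowerCentralSeries_succ, Subgroup.commutator_le]
    intro a ha b hb
    obtain ⟨haS, ha'⟩ := ih ha
    have hc : a⁻¹ * b⁻¹ ∈ S := S.mul_mem (S.inv_mem haS) (S.inv_mem hb)
    refine ⟨?_, ?_⟩
    · rw [commutatorElement_def, mul_assoc]
      exact S.mul_mem (S.mul_mem haS hb) hc
    · have h1 : ((⁅a, b⁆ : Aˣ) : A) - 1 = (((a : A) - 1) * ((b : A) - 1) - ((b : A) - 1) * ((a : A) - 1)) * (((a⁻¹ * b⁻¹ : Aˣ) : A) - 1) +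
          (((a : A) - 1) * ((b : A) - 1) - ((b : A) - 1) * ((a : A) - 1)) := by
        have h7 : ((⁅a, b⁆ : Aˣ) : A) = (a : A) * b * ((a⁻¹ * b⁻¹ : Aˣ) : A) := by
          rw [commutatorElement_def, mul_assoc, Units.val_mul, Units.val_mul]
        have h8 : (1 : A) = (b : A) * a * ((a⁻¹ * b⁻¹ : Aˣ) : A) := by
          rw [← Units.val_mul, ← Units.val_mul, ← Units.val_one]
          congr 1
          group
        rw [h7]
        conv_lhs => rw [h8]
        noncomm_ring
      have h2 : ((a : A) - 1) * ((b : A) - 1) - ((b : A) - 1) * ((a : A) - 1) ∈ Om k x (j + 1 + 1) := by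
        refine Submodule.sub_mem _ (Om_mul ha' (hS b hb)) ?_
        have h3 := Om_mul (hS b hb) ha'
        rwa [add_comm 1 (j + 1)] at h3
      rw [h1]
      exact Submodule.add_mem _ (Om_anti x (by omega) (Om_mul h2 (hS _ hc))) h2

end om

variable {p : ℕ} [hp : Fact p.Prime]

theorem inv_eq_pow {G : Type*} [Group G] {a : G} (h : ∃ k : ℕ, a ^ p ^ k = 1) : ∃ n : ℕ, a⁻¹ = a ^ n := by
  obtain ⟨k, hk⟩ := h
  refine ⟨p ^ k - 1, ?_⟩
  rw [inv_eq_iff_mul_eq_one, ← pow_succ', Nat.sub_add_cancel (Nat.one_le_pow _ _ hp.out.pos), hk]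

/-- finite rings -/
theorem fin_case {B : Type*} [Ring B] [Finite B] [Algebra (ZMod p) B] [Fintype ι] {n e : ℕ} {c : Equiv.Perm (Fin n) → ZMod p} (hc : c 1 = 1)
    (h : Ident B n c) {g : ι → Bˣ} (hpg : ∀ a ∈ Subgroup.closure (Set.range g), ∃ k : ℕ, a ^ p ^ k = 1)
    (hcm : ∀ (m : ℕ) (a : Bˣ), m < n → Cm g m a → a ^ p ^ e = 1) {w : List ι} (hw : bigC (p ^ e) n * Fintype.card ι < w.length) :
    X (fun i => (g i : B) - 1) w = 0 := by
  rcases subsingleton_or_nontrivial B with hB | hB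
  · exact Subsingleton.elim _ _
  have hchar : CharP B p := charP_of_injective_algebraMap (algebraMap (ZMod p) B).injective p
  have hinv : ∀ i, ∃ n : ℕ, (g i)⁻¹ = g i ^ n := fun i => inv_eq_pow (hpg _ (Subgroup.subset_closure ⟨i, rfl⟩))
  have hq : 1 ≤ p ^ e := Nat.one_le_pow _ _ hp.out.pos
  have h1 : ∀ (m : ℕ) (a : Bˣ), m < n → Cm g m a → ((a : B) - 1) ^ p ^ e = 0 := by
    intro m a hm ha
    rw [sub_pow_char_pow_of_commute p _ (Commute.one_right _), one_pow, ← Units.val_pow_eq_pow_val, hcm m a hm ha, Units.val_one, sub_self]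
  obtain ⟨b, hb⟩ := nil_aug (p := p) (CharP.cast_eq_zero B p) (Subgroup.closure (Set.range g)) (fun a => by
    obtain ⟨k, hk⟩ := hpg a a.2
    exact ⟨k, Subtype.ext hk⟩)
  refine X_eq_zero_of_nil (k := ZMod p) (N₀ := bigC (p ^ e) n * Fintype.card ι) (c := b) ?_ ?_ hw
  · intro w hw
    rw [bigC_eq] at hw
    exact mem_EE hq hc h hinv h1 hw
  · intro w hw
    have h2 := hb (w.map g) (by
      intro s hs
      obtain ⟨i, -, rfl⟩ := List.mem_map.1 hs
      exact Subgroup.subset_closure ⟨i, rfl⟩) (by rw [List.length_map]; exact hw)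
    rw [List.map_map] at h2
    exact h2

theorem gen_case {A : Type*} [Ring A] [Algebra (ZMod p) A] [Fintype ι] {n e : ℕ} {c : Equiv.Perm (Fin n) → ZMod p} (hc : c 1 = 1)
    (h : Ident A n c) {g : ι → Aˣ} (hpg : ∀ a ∈ Subgroup.closure (Set.range g), ∃ k : ℕ, a ^ p ^ k = 1)
    (hcm : ∀ (m : ℕ) (a : Aˣ), m < n → Cm g m a → a ^ p ^ e = 1) {w : List ι} (hw : bigC (p ^ e) n * Fintype.card ι < w.length) :
    X (fun i => (g i : A) - 1) w = 0 := by
  classical
  -- the words with less than `n` letters have bounded order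
  have hwords : ∀ v : List ι, ∃ k : ℕ, (v.map g).prod ^ p ^ k = 1 := by
    intro v
    refine hpg _ (Subgroup.list_prod_mem _ ?_)
    intro s hs
    obtain ⟨i, -, rfl⟩ := List.mem_map.1 hs
    exact Subgroup.subset_closure ⟨i, rfl⟩
  choose kk hkk using hwords
  have hfin : {v : List ι | v.length < n}.Finite := List.finite_length_lt ι n
  obtain ⟨K, hK0, hK⟩ : ∃ K : ℕ, 0 < K ∧ ∀ v : List ι, v.length < n → X (fun i => (g i : A)) v ^ K = 1 := by
    refine ⟨p ^ hfin.toFinset.sup kk, pow_pos hp.out.pos _, ?_⟩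
    intro v hv
    have h1 : X (fun i => (g i : A)) v = (((v.map g).prod : Aˣ) : A) := by
      unfold X
      rw [← Units.coeHom_apply, map_list_prod, List.map_map]
      rfl
    obtain ⟨j, hj⟩ := Nat.exists_eq_add_of_le (Finset.le_sup (f := kk) (hfin.mem_toFinset.2 hv))
    rw [h1, ← Units.val_pow_eq_pow_val, hj, pow_add, pow_mul, hkk, one_pow, Units.val_one]
  have hBfin : Finite (Algebra.adjoin (ZMod p) (Set.range fun i => (g i : A))) := finite_adjoin hK0 hc h hK
  set B := Algebra.adjoin (ZMod p) (Set.range fun i => (g i : A)) with hB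
  have hgB : ∀ i, (g i : A) ∈ B := fun i => Algebra.subset_adjoin ⟨i, rfl⟩
  have hgB' : ∀ i, (((g i)⁻¹ : Aˣ) : A) ∈ B := by
    intro i
    obtain ⟨n, hn⟩ := inv_eq_pow (hpg _ (Subgroup.subset_closure ⟨i, rfl⟩))
    rw [hn, Units.val_pow_eq_pow_val]
    exact pow_mem (hgB i) n
  let g' : ι → Bˣ := fun i => ⟨⟨g i, hgB i⟩, ⟨((g i)⁻¹ : Aˣ), hgB' i⟩, Subtype.ext (by simp), Subtype.ext (by simp)⟩
  let f : Bˣ →* Aˣ := Units.map (B.val : B →* A)
  have hf : Function.Injective f := Units.map_injective Subtype.val_injective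
  have hfg : ∀ i, f (g' i) = g i := fun i => Units.ext rfl
  have hIB : Ident B n c := by
    intro a
    apply Subtype.ext
    have h1 := h fun i => (a i : A)
    rw [ZeroMemClass.coe_zero, ← h1]
    rw [AddSubmonoidClass.coe_finsetSum]
    refine Finset.sum_congr rfl fun σ _ => ?_
    rw [Subalgebra.coe_smul]
    congr 1
    have h2 : (((List.ofFn fun i => a (σ i)).prod : B) : A) = B.val (List.ofFn fun i => a (σ i)).prod := rfl
    rw [h2, map_list_prod, List.map_ofFn]
    rfl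
  have hpg' : ∀ a ∈ Subgroup.closure (Set.range g'), ∃ k : ℕ, a ^ p ^ k = 1 := by
    intro a ha
    have h1 : f a ∈ Subgroup.closure (Set.range g) := by
      have h2 : f a ∈ (Subgroup.closure (Set.range g')).map f := ⟨a, ha, rfl⟩
      rw [MonoidHom.map_closure] at h2
      have h3 : f '' Set.range g' = Set.range g := by
        rw [← Set.range_comp]
        congr 1
      rwa [h3] at h2
    obtain ⟨k, hk⟩ := hpg _ h1
    refine ⟨k, hf ?_⟩
    rw [map_pow, hk, map_one]
  have hcm' : ∀ (m : ℕ) (a : Bˣ), Cm g' m a → Cm g m (f a) := by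
    intro m a ha
    induction ha with
    | gen i =>
      rw [hfg]
      exact Cm.gen i
    | comm _ _ ha hb =>
      rw [map_mul, map_mul, map_mul, map_inv, map_inv]
      exact ha.comm hb
  have h1 := fin_case hc hIB hpg' (fun m a hm ha => hf (by rw [map_pow, hcm m _ hm (hcm' m a ha), map_one])) hw
  have h2 : X (fun i => (g i : A) - 1) w = B.val (X (fun i => (g' i : B) - 1) w) := by
    unfold X
    rw [map_list_prod, List.map_map]
    rfl
  rw [h2, h1, map_zero]

/-- **the class is at most linear in the number of generators** -/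
theorem main {A : Type*} [Ring A] [Algebra (ZMod p) A] [Fintype ι] {n e : ℕ} {c : Equiv.Perm (Fin n) → ZMod p} (hc : c 1 = 1)
    (h : Ident A n c) {g : ι → Aˣ} (hpg : ∀ a ∈ Subgroup.closure (Set.range g), ∃ k : ℕ, a ^ p ^ k = 1)
    (hcm : ∀ (m : ℕ) (a : Aˣ), m < n → Cm g m a → a ^ p ^ e = 1) :
    (Subgroup.closure (Set.range g)).lowerCentralSeries (bigC (p ^ e) n * Fintype.card ι) = ⊥ := by
  have hinv : ∀ i, ∃ n : ℕ, (g i)⁻¹ = g i ^ n := fun i => inv_eq_pow (hpg _ (Subgroup.subset_closure ⟨i, rfl⟩))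
  have hS : ∀ a ∈ Subgroup.closure (Set.range g), (a : A) - 1 ∈ Om (ZMod p) (fun i => (g i : A) - 1) 1 := by
    intro a ha
    have h1 := lead_unit (k := ZMod p) hinv ha
    unfold Lead at h1
    rw [X_nil] at h1
    exact EE_nil_le _ h1
  rw [eq_bot_iff]
  intro a ha
  obtain ⟨-, h1⟩ := lcs_le hS _ ha
  have h2 : Om (ZMod p) (fun i => (g i : A) - 1) (bigC (p ^ e) n * Fintype.card ι + 1) ≤ ⊥ := by
    refine Submodule.span_le.2 ?_
    rintro a ⟨u, hu, rfl⟩
    exact gen_case hc h hpg hcm hu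
  have h3 := (Submodule.mem_bot _).1 (h2 h1)
  exact Subgroup.mem_bot.2 (Units.ext (sub_eq_zero.1 h3))

end Pool.Agent.H8.PI
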