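import Mathlib

/-!
# PI Word: long words are `n`-divisible or contain powers

`SLt u v`: at the first position where `u` and `v` differ (there is one) the letter of `u` is smaller.
`word_main`: every word with more than `n * (n ^ (n ^ (k * n)) * (k * n + n)) * l` letters, over an alphabet with `l` letters, contains a product
`u₁ ⋯ uₙ` with `u₁ < ⋯ < uₙ` (in the sense of `SLt`), or the `k`-th power of a nonempty word with less than `n` letters.
-/

set_option autoImplicit false

set_option linter.unusedSectionVars false

namespace Pool.Agent.H8.PI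

variable {α : Type*} [LinearOrder α]

/-- `u` is smaller than `v` at the first position where they differ -/
def SLt : List α → List α → Prop
  | x :: u, y :: v => x < y ∨ (x = y ∧ SLt u v)
  | _, _ => False

@[simp] theorem sLt_nil_left (v : List α) : ¬ SLt [] v := by
  cases v <;> simp [SLt]

@[simp] theorem sLt_nil_right (u : List α) : ¬ SLt u [] := by
  cases u <;> simp [SLt]

@[simp] theorem sLt_cons {x y : α} {u v : List α} : SLt (x :: u) (y :: v) ↔ x < y ∨ (x = y ∧ SLt u v) := Iff.rfl

theorem SLt.append {u v : List α} (h : SLt u v) (s t : List α) : SLt (u ++ s) (v ++ t) := by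
  induction u generalizing v with
  | nil => simp at h
  | cons x u ih =>
    cases v with
    | nil => simp at h
    | cons y v =>
      rw [sLt_cons] at h
      rw [List.cons_append, List.cons_append, sLt_cons]
      rcases h with h | ⟨h1, h2⟩
      · exact Or.inl h
      · exact Or.inr ⟨h1, ih h2⟩

theorem sLt_append_left (c : List α) {u v : List α} : SLt (c ++ u) (c ++ v) ↔ SLt u v := by
  induction c with
  | nil => rfl
  | cons x c ih => simp [ih]

theorem sLt_irrefl (u : List α) : ¬ SLt u u := by
  induction u with
  | nil => simp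
  | cons x u ih => simp [ih]

theorem SLt.trans {u v w : List α} (h : SLt u v) (h' : SLt v w) : SLt u w := by
  induction u generalizing v w with
  | nil => simp at h
  | cons x u ih =>
    cases v with
    | nil => simp at h
    | cons y v =>
      cases w with
      | nil => simp at h'
      | cons z w =>
        rw [sLt_cons] at h h' ⊢
        rcases h with h | ⟨h1, h2⟩
        · rcases h' with h' | ⟨h3, h4⟩
          · exact Or.inl (h.trans h')
          · exact Or.inl (h3 ▸ h)
        · rcases h' with h' | ⟨h3, h4⟩
          · exact Or.inl (h1 ▸ h')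
          · exact Or.inr ⟨h1.trans h3, ih h2 h4⟩

/-- trichotomy -/
theorem sLt_tri (u v : List α) : SLt u v ∨ SLt v u ∨ u <+: v ∨ v <+: u := by
  induction u generalizing v with
  | nil => exact Or.inr (Or.inr (Or.inl (List.nil_prefix)))
  | cons x u ih =>
    cases v with
    | nil => exact Or.inr (Or.inr (Or.inr (List.nil_prefix)))
    | cons y v =>
      rcases lt_trichotomy x y with h | h | h
      · exact Or.inl (Or.inl h)
      · subst h
        rcases ih v with h1 | h1 | h1 | h1
        · exact Or.inl (Or.inr ⟨rfl, h1⟩)
        · exact Or.inr (Or.inl (Or.inr ⟨rfl, h1⟩))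
        · exact Or.inr (Or.inr (Or.inl (by rw [List.cons_prefix_cons]; exact ⟨rfl, h1⟩)))
        · exact Or.inr (Or.inr (Or.inr (by rw [List.cons_prefix_cons]; exact ⟨rfl, h1⟩)))
      · exact Or.inr (Or.inl (Or.inl h))

theorem sLt_tri_length {u v : List α} (h : u.length = v.length) : SLt u v ∨ SLt v u ∨ u = v := by
  rcases sLt_tri u v with h1 | h1 | h1 | h1
  · exact Or.inl h1
  · exact Or.inr (Or.inl h1)
  · exact Or.inr (Or.inr (h1.eq_of_length h))
  · exact Or.inr (Or.inr (h1.eq_of_length h.symm).symm)

/-- the lexicographic order on words of the same length -/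
theorem sLt_of_lt {u v : List α} (h : u < v) (hl : u.length = v.length) : SLt u v := by
  induction u generalizing v with
  | nil =>
    have : v = [] := List.length_eq_zero_iff.1 hl.symm
    subst this
    exact absurd h (lt_irrefl _)
  | cons x u ih =>
    cases v with
    | nil => simp at hl
    | cons y v =>
      rw [List.cons_lt_cons_iff] at h
      rcases h with h | ⟨h1, h2⟩
      · exact Or.inl h
      · exact Or.inr ⟨h1, ih h2 (by simpa using hl)⟩

/-- a product of words is smaller than the products of the permuted words -/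
theorem sLt_flatten_of_perm {us vs : List (List α)} (h : us.Pairwise SLt) (hp : vs.Perm us) (hne : vs ≠ us) :
    SLt us.flatten vs.flatten := by
  induction us generalizing vs with
  | nil => exact absurd hp.eq_nil hne
  | cons u us ih =>
    cases vs with
    | nil => exact absurd hp.symm.eq_nil (by simp)
    | cons v vs =>
      rw [List.pairwise_cons] at h
      by_cases hv : v = u
      · subst hv
        rw [List.flatten_cons, List.flatten_cons, sLt_append_left]
        exact ih h.2 (List.perm_cons v |>.1 hp) (fun h1 => hne (by rw [h1]))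
      · have h1 : v ∈ u :: us := hp.subset (List.mem_cons_self)
        have h2 : v ∈ us := by
          rcases List.mem_cons.1 h1 with h3 | h3
          · exact absurd h3 hv
          · exact h3
        rw [List.flatten_cons, List.flatten_cons]
        exact (h.1 v h2).append _ _

/-- the words of the list are disjoint factors of `w`, in this order -/
def Occ : List α → List (List α) → Prop
  | _, [] => True
  | w, f :: fs => ∃ a b, w = a ++ f ++ b ∧ Occ b fs

theorem Occ.append_right {w : List α} {fs : List (List α)} (h : Occ w fs) (d : List α) : Occ (w ++ d) fs := by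
  induction fs generalizing w with
  | nil => trivial
  | cons f fs ih =>
    obtain ⟨a, b, h1, h2⟩ := h
    exact ⟨a, b ++ d, by rw [h1]; simp, ih h2⟩

theorem Occ.append_left {w : List α} {fs : List (List α)} (h : Occ w fs) (c : List α) : Occ (c ++ w) fs := by
  cases fs with
  | nil => trivial
  | cons f fs =>
    obtain ⟨a, b, h1, h2⟩ := h
    exact ⟨c ++ a, b, by rw [h1]; simp, h2⟩

theorem Occ.mono {w w' : List α} {fs : List (List α)} (h : Occ w fs) (hw : w <:+: w') : Occ w' fs := by
  obtain ⟨a, b, rfl⟩ := hw
  exact (h.append_left a).append_right b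

theorem occ_of_sublist {xs w : List α} (h : List.Sublist xs w) : Occ w (xs.map fun x => [x]) := by
  induction h with
  | slnil => trivial
  | cons a _ ih =>
    rename_i l₁ l₂ _
    exact ih.append_left [a]
  | cons_cons a _ ih => exact ⟨[], _, rfl, ih⟩

private theorem Word_pair {fs us : List (List α)} (h : List.Forall₂ (fun f u => f <+: u) fs us) (hp : fs.Pairwise SLt) :
    us.Pairwise SLt := by
  induction h with
  | nil => exact List.Pairwise.nil
  | cons h1 h2 ih =>
    rename_i f u fs us
    rw [List.pairwise_cons] at hp ⊢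
    refine ⟨?_, ih hp.2⟩
    intro v hv
    obtain ⟨i, hi, rfl⟩ := List.getElem_of_mem hv
    have hl := h2.length_eq
    have h3 := (List.forall₂_iff_get.1 h2).2 i (by omega) hi
    obtain ⟨s, hs⟩ := h1
    obtain ⟨t, ht⟩ := h3
    have h4 := hp.1 (fs.get ⟨i, by omega⟩) (List.get_mem _ _)
    have h5 := h4.append s t
    rw [hs, ht] at h5
    exact h5

/-- disjoint increasing factors give a division -/
theorem Occ.division {w : List α} {fs : List (List α)} (h : Occ w fs) (hp : fs.Pairwise SLt) :
    ∃ us : List (List α), us.flatten <:+: w ∧ us.length = fs.length ∧ us.Pairwise SLt := by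
  have key : ∀ (fs : List (List α)) (w : List α), Occ w fs → ∃ (a b : List α) (us : List (List α)), w = a ++ us.flatten ++ b ∧
      List.Forall₂ (fun f u => f <+: u) fs us := by
    intro fs
    induction fs with
    | nil => exact fun w _ => ⟨[], w, [], by simp, List.Forall₂.nil⟩
    | cons f fs ih =>
      rintro w ⟨a, b, h1, h2⟩
      obtain ⟨a', b', us, h3, h4⟩ := ih b h2
      refine ⟨a, b', (f ++ a') :: us, ?_, List.Forall₂.cons (List.prefix_append _ _) h4⟩
      rw [h1, h3]
      simp
  obtain ⟨a, b, us, h1, h2⟩ := key fs w h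
  exact ⟨us, ⟨a, b, h1.symm⟩, h2.length_eq.symm, Word_pair h2 hp⟩

/-! ### first step: factors with few letters -/

section step1

variable [Fintype α]

open Classical in
/-- the letters at which increasing subsequences of `w` with `j + 1` members start -/
noncomputable def TT (w : List α) (j : ℕ) : Finset α :=
  Finset.univ.filter fun x => ∃ xs : List α, List.Sublist (x :: xs) w ∧ (x :: xs).Pairwise (· < ·) ∧ xs.length = j

open Classical in
/-- the letters below a member of `TT w j` -/
noncomputable def UU (w : List α) (j : ℕ) : Finset α := Finset.univ.filter fun x => ∃ y ∈ TT w j, x ≤ y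

theorem mem_TT {w : List α} {j : ℕ} {x : α} : x ∈ TT w j ↔ ∃ xs : List α, List.Sublist (x :: xs) w ∧
    (x :: xs).Pairwise (· < ·) ∧ xs.length = j := by
  simp [TT]

theorem mem_UU {w : List α} {j : ℕ} {x : α} : x ∈ UU w j ↔ ∃ y ∈ TT w j, x ≤ y := by
  simp [UU]

theorem UU_mono {w w' : List α} (h : List.Sublist w w') (j : ℕ) : UU w j ⊆ UU w' j := by
  intro x hx
  obtain ⟨y, hy, hxy⟩ := mem_UU.1 hx
  obtain ⟨xs, h1, h2, h3⟩ := mem_TT.1 hy
  exact mem_UU.2 ⟨y, mem_TT.2 ⟨xs, h1.trans h, h2, h3⟩, hxy⟩

/-- if no `UU` grows there is a long increasing subsequence -/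
theorem step1_grow (W w : List α) (n : ℕ) (hn : n + 1 ≤ W.toFinset.card) (h : ∀ j < n, UU (W ++ w) j ⊆ UU w j) :
    (TT (W ++ w) n).Nonempty := by
  classical
  set e := W.toFinset.orderEmbOfFin rfl with he
  have hmem : ∀ i, e i ∈ W := fun i => List.mem_toFinset.1 (Finset.orderEmbOfFin_mem _ _ _)
  have key : ∀ j, j ≤ n → ∀ i : Fin W.toFinset.card, (i : ℕ) + j + 1 = W.toFinset.card → e i ∈ TT (W ++ w) j := by
    intro j
    induction j with
    | zero =>
      intro _ i _
      refine mem_TT.2 ⟨[], ?_, by simp, rfl⟩
      exact List.singleton_sublist.2 (List.mem_append_left _ (hmem i))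
    | succ j ih =>
      intro hj i hi
      have h1 := ih (by omega) ⟨i + 1, by omega⟩ (by simp only; omega)
      have h2 : e ⟨i + 1, by omega⟩ ∈ UU (W ++ w) j := mem_UU.2 ⟨_, h1, le_rfl⟩
      obtain ⟨z, hz, hle⟩ := mem_UU.1 (h j (by omega) h2)
      obtain ⟨xs, h3, h4, h5⟩ := mem_TT.1 hz
      have hlt : e i < z := by
        refine lt_of_lt_of_le ?_ hle
        exact e.strictMono (by simp [Fin.lt_def])
      refine mem_TT.2 ⟨z :: xs, ?_, ?_, by simp [h5]⟩
      · have h6 : List.Sublist [e i] W := List.singleton_sublist.2 (hmem i)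
        exact h6.append h3
      · rw [List.pairwise_cons]
        refine ⟨?_, h4⟩
        intro a ha
        rcases List.mem_cons.1 ha with h7 | h7
        · exact h7 ▸ hlt
        · exact hlt.trans ((List.pairwise_cons.1 h4).1 a h7)
  exact ⟨_, key n le_rfl ⟨W.toFinset.card - n - 1, by omega⟩ (by simp only; omega)⟩

/-- either an increasing subsequence of length `n + 1` or a factor of length `C` with at most `n` letters -/
theorem step1 (n C : ℕ) (w : List α) (hw : C * (n * Fintype.card α + 1) ≤ w.length) :
    (∃ xs : List α, xs.length = n + 1 ∧ List.Sublist xs w ∧ xs.Pairwise (· < ·)) ∨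
      ∃ V : List α, V <:+: w ∧ V.length = C ∧ V.toFinset.card ≤ n := by
  by_contra hcon
  rw [not_or] at hcon
  obtain ⟨h1, h2⟩ := hcon
  have key : ∀ M : ℕ, ∀ w' : List α, w' <:+ w → w'.length = C * M → M ≤ ∑ j ∈ Finset.range n, (UU w' j).card := by
    intro M
    induction M with
    | zero => exact fun w' _ _ => Nat.zero_le _
    | succ M ih =>
      intro w' hw' hl
      have hC : C ≤ w'.length := by rw [hl]; exact Nat.le_mul_of_pos_right _ (Nat.succ_pos _)
      have hsuf : w'.drop C <:+ w' := List.drop_suffix _ _
      have h3 := ih (w'.drop C) (hsuf.trans hw') (by rw [List.length_drop, hl]; rw [Nat.mul_succ]; omega)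
      have h4 : n + 1 ≤ (w'.take C).toFinset.card := by
        by_contra h5
        exact h2 ⟨w'.take C, (List.take_prefix _ _).isInfix.trans hw'.isInfix, by rw [List.length_take]; omega, by omega⟩
      have h5 : ¬ ∀ j < n, UU (w'.take C ++ w'.drop C) j ⊆ UU (w'.drop C) j := by
        intro h6
        obtain ⟨x, hx⟩ := step1_grow _ _ n h4 h6
        obtain ⟨xs, h7, h8, h9⟩ := mem_TT.1 hx
        rw [List.take_append_drop] at h7
        exact h1 ⟨x :: xs, by simp [h9], h7.trans hw'.sublist, h8⟩
      rw [List.take_append_drop] at h5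
      push Not at h5
      obtain ⟨j, hj, hn⟩ := h5
      have h6 : ∑ j ∈ Finset.range n, (UU (w'.drop C) j).card < ∑ j ∈ Finset.range n, (UU w' j).card := by
        refine Finset.sum_lt_sum (fun i _ => Finset.card_le_card (UU_mono hsuf.sublist i)) ⟨j, Finset.mem_range.2 hj, ?_⟩
        refine Finset.card_lt_card ⟨UU_mono hsuf.sublist j, hn⟩
      omega
  have h3 : ∀ w' : List α, ∑ j ∈ Finset.range n, (UU w' j).card ≤ n * Fintype.card α := by
    intro w'
    refine (Finset.sum_le_card_nsmul _ _ (Fintype.card α) fun j _ => Finset.card_le_univ _).trans ?_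
    rw [Finset.card_range, smul_eq_mul]
  have h4 := key (n * Fintype.card α + 1) (w.drop (w.length - C * (n * Fintype.card α + 1))) (List.drop_suffix _ _)
    (by rw [List.length_drop]; omega)
  have h5 := h3 (w.drop (w.length - C * (n * Fintype.card α + 1)))
  omega

end step1

/-! ### second step: words with few letters -/

/-- the factors of length `L` -/
def Fac (V : List α) (L : ℕ) : Finset (List α) := (Finset.range (V.length + 1 - L)).image fun i => (V.drop i).take L

theorem mem_Fac {V : List α} {L : ℕ} {f : List α} : f ∈ Fac V L ↔ f <:+: V ∧ f.length = L := by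
  unfold Fac
  rw [Finset.mem_image]
  constructor
  · rintro ⟨i, hi, rfl⟩
    rw [Finset.mem_range] at hi
    refine ⟨(List.take_prefix _ _).isInfix.trans (List.drop_suffix _ _).isInfix, ?_⟩
    rw [List.length_take, List.length_drop]
    omega
  · rintro ⟨⟨a, b, rfl⟩, rfl⟩
    refine ⟨a.length, ?_, ?_⟩
    · rw [Finset.mem_range]
      simp only [List.length_append]
      omega
    · rw [List.append_assoc, List.drop_left, List.take_left]

theorem Fac_mono {V V' : List α} (h : V <:+: V') (L : ℕ) : Fac V L ⊆ Fac V' L := by
  intro f hf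
  rw [mem_Fac] at hf ⊢
  exact ⟨hf.1.trans h, hf.2⟩

theorem card_Fac_le (V : List α) (L : ℕ) : (Fac V L).card ≤ V.toFinset.card ^ L := by
  classical
  have h1 : Fac V L ⊆ (Fintype.piFinset fun _ : Fin L => V.toFinset).image fun g => List.ofFn g := by
    intro f hf
    obtain ⟨h2, h3⟩ := mem_Fac.1 hf
    subst h3
    refine Finset.mem_image.2 ⟨fun i => f.get i, ?_, by simp⟩
    rw [Fintype.mem_piFinset]
    intro i
    exact List.mem_toFinset.2 (h2.subset (List.get_mem _ _))
  refine (Finset.card_le_card h1).trans (Finset.card_image_le.trans ?_)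
  rw [Fintype.card_piFinset_const]

/-- a word which agrees with its shift is a power -/
theorem pow_prefix {v R : List α} (h : R <+: v ++ R) (k : ℕ) (hk : k * v.length ≤ (v ++ R).length) :
    (List.replicate k v).flatten <+: v ++ R := by
  induction k with
  | zero => simp
  | succ k ih =>
    have h1 := ih (by
      refine le_trans ?_ hk
      exact Nat.mul_le_mul_right _ (Nat.le_succ k))
    rw [List.replicate_succ, List.flatten_cons, List.prefix_append_right_inj]
    refine List.prefix_of_prefix_length_le h1 h ?_
    have h2 : (List.replicate k v).flatten.length = k * v.length := by simp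
    rw [h2]
    rw [List.length_append, Nat.succ_mul] at hk
    omega

theorem shift_pow {V : List α} {L i j : ℕ} (hij : i < j) (hj : j + L ≤ V.length) (h : (V.drop i).take L = (V.drop j).take L) (k : ℕ)
    (hk : k * (j - i) ≤ L) : ∃ v : List α, (List.replicate k v).flatten <:+: V ∧ v ≠ [] ∧ v.length = j - i := by
  set v := (V.drop i).take (j - i) with hv
  have hlv : v.length = j - i := by rw [hv, List.length_take, List.length_drop]; omega
  set R := (V.drop j).take L with hR
  have hlR : R.length = L := by rw [hR, List.length_take, List.length_drop]; omega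
  have h1 : v ++ R = (V.drop i).take (j - i + L) := by
    rw [List.take_add, hv, hR, List.drop_drop]
    congr 3
    omega
  have h2 : R <+: v ++ R := by
    rw [h1, ← h]
    exact List.take_prefix_take_left (by omega)
  have h3 := pow_prefix h2 k (by rw [List.length_append, hlv, hlR]; omega)
  refine ⟨v, ?_, ?_, hlv⟩
  · rw [h1] at h3
    exact (h3.trans (List.take_prefix _ _)).isInfix.trans (List.drop_suffix _ _).isInfix
  · intro h4
    rw [h4] at hlv
    simp at hlv
    omega

theorem occ_of_all {s : ℕ} {F : Finset (List α)} (fs : List (List α)) (hfs : ∀ f ∈ fs, f ∈ F) :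
    ∀ V : List α, fs.length * s ≤ V.length → (∀ V' : List α, V' <:+: V → V'.length = s → ∀ f ∈ F, f <:+: V') → Occ V fs := by
  induction fs with
  | nil => exact fun _ _ _ => trivial
  | cons f fs ih =>
    intro V hV h
    rw [List.length_cons, Nat.succ_mul] at hV
    have h1 := h (V.take s) (List.take_prefix _ _).isInfix (by rw [List.length_take]; omega) f (hfs f (List.mem_cons_self))
    have h2 := ih (fun g hg => hfs g (List.mem_cons_of_mem _ hg)) (V.drop s) (by rw [List.length_drop]; omega)
      (fun V' hV' hl g hg => h V' (hV'.trans (List.drop_suffix _ _).isInfix) hl g hg)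
    obtain ⟨a, b, h3⟩ := h1
    refine ⟨a, b ++ V.drop s, ?_, h2.append_left b⟩
    rw [← List.append_assoc, h3, List.take_append_drop]

theorem step2 (n k : ℕ) (t : ℕ) : ∀ V : List α, (Fac V (k * n)).card ≤ t → n ^ t * (k * n + n) ≤ V.length → 0 < n →
    (∃ fs : List (List α), fs.length = n ∧ fs.Pairwise SLt ∧ Occ V fs) ∨
      ∃ v : List α, (List.replicate k v).flatten <:+: V ∧ v ≠ [] ∧ v.length < n := by
  induction t with
  | zero =>
    intro V h1 h2 hn
    exfalso
    have h3 : (V.take (k * n)) ∈ Fac V (k * n) := by
      rw [mem_Fac]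
      refine ⟨(List.take_prefix _ _).isInfix, ?_⟩
      rw [List.length_take]
      rw [pow_zero, one_mul] at h2
      omega
    have h4 := Finset.card_pos.2 ⟨_, h3⟩
    omega
  | succ t ih =>
    intro V h1 h2 hn
    by_cases hV : ∃ V' : List α, V' <:+: V ∧ V'.length = n ^ t * (k * n + n) ∧ Fac V' (k * n) ≠ Fac V (k * n)
    · obtain ⟨V', h3, h4, h5⟩ := hV
      have h6 : Fac V' (k * n) ⊂ Fac V (k * n) := (Fac_mono h3 _).ssubset_of_ne h5
      have h7 := Finset.card_lt_card h6
      rcases ih V' (by omega) h4.ge hn with ⟨fs, h8, h9, h10⟩ | ⟨v, h8, h9⟩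
      · exact Or.inl ⟨fs, h8, h9, h10.mono h3⟩
      · exact Or.inr ⟨v, h8.trans h3, h9⟩
    · push Not at hV
      by_cases hc : n ≤ (Fac V (k * n)).card
      · left
        have hlen : (((Fac V (k * n)).sort (· ≤ ·)).take n).length = n := by
          rw [List.length_take, Finset.length_sort]
          omega
        refine ⟨((Fac V (k * n)).sort (· ≤ ·)).take n, hlen, ?_, ?_⟩
        · have h3 : ((Fac V (k * n)).sort (· ≤ ·)).Pairwise (· < ·) := (Finset.sortedLT_sort _).pairwise
          have h4 := h3.sublist (List.take_sublist n _)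
          refine h4.imp_of_mem ?_
          intro a b ha hb hab
          have h5 : ∀ c ∈ ((Fac V (k * n)).sort (· ≤ ·)).take n, c.length = k * n := fun c hc =>
            (mem_Fac.1 ((Finset.mem_sort _).1 (List.mem_of_mem_take hc))).2
          exact sLt_of_lt hab (by rw [h5 a ha, h5 b hb])
        · refine occ_of_all (s := n ^ t * (k * n + n)) (F := Fac V (k * n)) _
            (fun f hf => (Finset.mem_sort _).1 (List.mem_of_mem_take hf)) V ?_ ?_
          · rw [hlen]
            rw [pow_succ] at h2
            calc n * (n ^ t * (k * n + n)) = n ^ t * n * (k * n + n) := by ring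
              _ ≤ V.length := h2
          · intro V' hV' hl f hf
            rw [← hV V' hV' hl] at hf
            exact (mem_Fac.1 hf).1
      · right
        push Not at hc
        have hlong : k * n + n ≤ V.length := by
          refine le_trans ?_ h2
          exact Nat.le_mul_of_pos_left _ (pow_pos hn _)
        have h3 : ∀ i ∈ Finset.range n, (V.drop i).take (k * n) ∈ Fac V (k * n) := by
          intro i hi
          rw [Finset.mem_range] at hi
          rw [mem_Fac]
          refine ⟨(List.take_prefix _ _).isInfix.trans (List.drop_suffix _ _).isInfix, ?_⟩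
          rw [List.length_take, List.length_drop]
          omega
        obtain ⟨i, hi, j, hj, hij, heq⟩ := Finset.exists_ne_map_eq_of_card_lt_of_maps_to (by rw [Finset.card_range]; exact hc) h3
        rw [Finset.mem_range] at hi hj
        have h4 : ∀ i j : ℕ, i < j → j < n → (V.drop i).take (k * n) = (V.drop j).take (k * n) →
            ∃ v : List α, (List.replicate k v).flatten <:+: V ∧ v ≠ [] ∧ v.length < n := by
          intro i j hij hj heq
          obtain ⟨v, h5, h6, h7⟩ := shift_pow hij (by omega) heq k (Nat.mul_le_mul_left _ (by omega))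
          exact ⟨v, h5, h6, by omega⟩
        rcases lt_or_gt_of_ne hij with h5 | h5
        · exact h4 i j h5 hj heq
        · exact h4 j i h5 hi heq.symm

/-- **the bound is linear in the number of letters** -/
theorem word_main [Fintype α] (n k : ℕ) (w : List α)
    (hw : n * (n ^ (n ^ (k * n)) * (k * n + n)) * Fintype.card α < w.length) :
    (∃ us : List (List α), us.flatten <:+: w ∧ us.length = n ∧ us.Pairwise SLt) ∨
      ∃ v : List α, (List.replicate k v).flatten <:+: w ∧ v ≠ [] ∧ v.length < n := by
  rcases Nat.eq_zero_or_pos n with rfl | hn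
  · exact Or.inl ⟨[], ⟨[], w, by simp⟩, rfl, List.Pairwise.nil⟩
  obtain ⟨n, rfl⟩ : ∃ m, n = m + 1 := ⟨n - 1, by omega⟩
  have hcard : 1 ≤ Fintype.card α := by
    cases w with
    | nil => simp at hw
    | cons x w => exact Fintype.card_pos_iff.2 ⟨x⟩
  set C := (n + 1) ^ ((n + 1) ^ (k * (n + 1))) * (k * (n + 1) + (n + 1)) with hC
  have h1 : C * (n * Fintype.card α + 1) ≤ w.length := by
    refine le_trans ?_ hw.le
    have h2 : n * Fintype.card α + 1 ≤ (n + 1) * Fintype.card α := by nlinarith
    calc C * (n * Fintype.card α + 1) ≤ C * ((n + 1) * Fintype.card α) := Nat.mul_le_mul_left _ h2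
      _ = (n + 1) * C * Fintype.card α := by ring
  rcases step1 n C w h1 with ⟨xs, h2, h3, h4⟩ | ⟨V, h2, h3, h4⟩
  · left
    have h5 : (xs.map fun x => [x]).Pairwise SLt := by
      rw [List.pairwise_map]
      exact h4.imp fun h => Or.inl h
    obtain ⟨us, h6, h7, h8⟩ := (occ_of_sublist h3).division h5
    exact ⟨us, h6, by rw [h7, List.length_map, h2], h8⟩
  · have h5 : (Fac V (k * (n + 1))).card ≤ (n + 1) ^ (k * (n + 1)) :=
      (card_Fac_le V _).trans (Nat.pow_le_pow_left (by omega) _)
    rcases step2 (n + 1) k _ V h5 (by rw [h3, hC]) (by omega) with ⟨fs, h6, h7, h8⟩ | ⟨v, h6, h7⟩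
    · obtain ⟨us, h9, h10, h11⟩ := h8.division h7
      exact Or.inl ⟨us, h9.trans h2, by rw [h10, h6], h11⟩
    · exact Or.inr ⟨v, h6.trans h2, h7⟩

end Pool.Agent.H8.PI
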